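import Pool.Agent.W254.LF.Stm

/-!
# The differential field of germs
-/

set_option autoImplicit false
set_option linter.unusedSectionVars false

namespace Pool.Agent.W924.LF

open HahnSeries Filter Topology
open scoped Nat

attribute [-instance] HahnSeries.powerSeriesAlgebra

section Gen

variable {K : Type} [Field K]

/-- the Euler derivation `s d/ds`, as a function -/
noncomputable def eulFun (u : HahnSeries ℤ K) : HahnSeries ℤ K where
  coeff g := (g : K) * u.coeff g
  isPWO_support' := u.isPWO_support.mono (by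
    intro g hg
    rw [Function.mem_support] at hg
    rw [mem_support]
    exact right_ne_zero_of_mul hg)

theorem coeff_eulFun (u : HahnSeries ℤ K) (g : ℤ) : (eulFun u).coeff g = (g : K) * u.coeff g := rfl

theorem support_eulFun (u : HahnSeries ℤ K) : (eulFun u).support ⊆ u.support := by
  intro g hg
  rw [mem_support, coeff_eulFun] at hg
  rw [mem_support]
  exact right_ne_zero_of_mul hg

/-- the Euler derivation `s d/ds` -/
noncomputable def eul : Derivation K (HahnSeries ℤ K) (HahnSeries ℤ K) where
  toFun := eulFun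
  map_add' u v := by
    ext g
    simp only [coeff_add, coeff_eulFun]
    ring
  map_smul' c u := by
    ext g
    simp only [coeff_smul, coeff_eulFun, RingHom.id_apply, smul_eq_mul]
    ring
  map_one_eq_zero' := by
    ext g
    simp only [LinearMap.coe_mk, AddHom.coe_mk, coeff_eulFun, coeff_one, coeff_zero]
    split_ifs with h
    · rw [h, Int.cast_zero, zero_mul]
    · rw [mul_zero]
  leibniz' u v := by
    ext g
    simp only [LinearMap.coe_mk, AddHom.coe_mk, smul_eq_mul, coeff_add, coeff_eulFun]
    rw [mul_comm v, coeff_mul_right' v.isPWO_support (support_eulFun v),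
      coeff_mul_left' u.isPWO_support (support_eulFun u), coeff_mul,
      Finset.mul_sum, ← Finset.sum_add_distrib]
    refine Finset.sum_congr rfl fun p hp => ?_
    rw [coeff_eulFun, coeff_eulFun, ← (Finset.mem_antidiagonal.1 hp).2.2, Int.cast_add]
    ring

theorem coeff_eul (u : HahnSeries ℤ K) (g : ℤ) :
    ((eul (K := K)) u).coeff g = (g : K) * u.coeff g := rfl

/-- the derivation `d/ds` -/
noncomputable def der : Derivation K (HahnSeries ℤ K) (HahnSeries ℤ K) :=
  (single (-1 : ℤ) (1 : K)) • eul

theorem coeff_der (u : HahnSeries ℤ K) (g : ℤ) :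
    (der u).coeff g = ((g + 1 : ℤ) : K) * u.coeff (g + 1) := by
  show (single (-1 : ℤ) (1 : K) * eul u).coeff g = _
  have h : g = (g + 1) + (-1) := by ring
  conv_lhs => rw [h]
  rw [coeff_single_mul_add, one_mul, coeff_eul]

theorem der_eq_zero [CharZero K] {x : HahnSeries ℤ K} (h : der x = 0) :
    algebraMap K (HahnSeries ℤ K) (x.coeff 0) = x := by
  ext g
  rw [HahnSeries.algebraMap_apply, C_apply, coeff_single]
  split_ifs with h0
  · rw [h0]; rfl
  · have h1 : (der x).coeff (g - 1) = 0 := by rw [h, coeff_zero]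
    rw [coeff_der, sub_add_cancel] at h1
    rcases mul_eq_zero.1 h1 with h2 | h2
    · exact absurd (Int.cast_eq_zero.1 h2) h0
    · exact h2.symm

end Gen

variable {K : Type} [NontriviallyNormedField K] [CompleteSpace K] [CharZero K]

/-- the Taylor series at `0` -/
noncomputable def TP (f : K → K) : PowerSeries K :=
  PowerSeries.mk fun n => iteratedDeriv n f 0 / (n ! : K)

/-- the Taylor series at `0` as a Laurent series -/
noncomputable def TL (f : K → K) : HahnSeries ℤ K := ofPowerSeries ℤ K (TP f)

theorem TP_add {f g : K → K} (hf : AnalyticAt K f 0) (hg : AnalyticAt K g 0) :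
    TP (fun s => f s + g s) = TP f + TP g := by
  ext n
  simp only [TP, PowerSeries.coeff_mk, map_add]
  rw [show (fun s => f s + g s) = f + g from rfl, iteratedDeriv_add hf.contDiffAt hg.contDiffAt,
    add_div]

theorem TP_mul {f g : K → K} (hf : AnalyticAt K f 0) (hg : AnalyticAt K g 0) :
    TP (fun s => f s * g s) = TP f * TP g := by
  ext n
  rw [PowerSeries.coeff_mul]
  simp only [TP, PowerSeries.coeff_mk]
  rw [show (fun s => f s * g s) = f * g from rfl, iteratedDeriv_mul hf.contDiffAt hg.contDiffAt,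
    Finset.Nat.sum_antidiagonal_eq_sum_range_succ
      (fun i j => iteratedDeriv i f 0 / (i ! : K) * (iteratedDeriv j g 0 / (j ! : K))),
    Finset.sum_div]
  refine Finset.sum_congr rfl fun i hi => ?_
  have hi' : i ≤ n := by
    rw [Finset.mem_range] at hi
    omega
  have h1 : (n.choose i : K) * (i ! : K) * ((n - i)! : K) = (n ! : K) := by
    exact_mod_cast Nat.choose_mul_factorial_mul_factorial hi'
  have h2 : (i ! : K) ≠ 0 := by exact_mod_cast i.factorial_ne_zero
  have h3 : ((n - i)! : K) ≠ 0 := by exact_mod_cast (n - i).factorial_ne_zero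
  have h4 : (n ! : K) ≠ 0 := by exact_mod_cast n.factorial_ne_zero
  rw [div_mul_div_comm, div_eq_div_iff h4 (mul_ne_zero h2 h3), ← h1]
  ring

theorem TP_const (c : K) : TP (fun _ => c) = PowerSeries.C c := by
  ext n
  simp only [TP, PowerSeries.coeff_mk, iteratedDeriv_const, PowerSeries.coeff_C]
  split_ifs with h
  · rw [h]; simp
  · simp

theorem coeff_TL_nat (f : K → K) (n : ℕ) : (TL f).coeff (n : ℤ) = iteratedDeriv n f 0 / (n ! : K) := by
  unfold TL
  rw [ofPowerSeries_apply_coeff, TP, PowerSeries.coeff_mk]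

theorem coeff_TL_neg (f : K → K) {g : ℤ} (hg : g < 0) : (TL f).coeff g = 0 := by
  unfold TL
  rw [ofPowerSeries_apply]
  apply embDomain_notin_range
  rintro ⟨n, hn⟩
  have : ((n : ℕ) : ℤ) = g := hn
  omega

theorem TL_deriv (f : K → K) : TL (deriv f) = der (TL f) := by
  ext g
  rw [coeff_der]
  rcases le_or_gt 0 g with h | h
  · obtain ⟨n, rfl⟩ := Int.eq_ofNat_of_zero_le h
    rw [show ((n : ℤ) + 1) = ((n + 1 : ℕ) : ℤ) by push_cast; ring, coeff_TL_nat, coeff_TL_nat,
      ← iteratedDeriv_succ']
    have h2 : ((n + 1 : ℕ) : K) ≠ 0 := by exact_mod_cast n.succ_ne_zero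
    have h4 : (n ! : K) ≠ 0 := by exact_mod_cast n.factorial_ne_zero
    rw [Nat.factorial_succ, Nat.cast_mul, Int.cast_natCast]
    field_simp
  · rw [coeff_TL_neg _ h]
    rcases eq_or_ne (g + 1) 0 with h1 | h1
    · rw [h1, Int.cast_zero, zero_mul]
    · rw [coeff_TL_neg _ (by omega : g + 1 < 0), mul_zero]

theorem TL_eq_zero {f : K → K} (hf : AnalyticAt K f 0) (h : TL f = 0) : ∀ᶠ s in 𝓝 (0 : K), f s = 0 := by
  have h1 : ∀ n : ℕ, iteratedDeriv n f 0 / (n ! : K) = 0 := by
    intro n
    rw [← coeff_TL_nat, h, coeff_zero]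
  have h2 := hf.hasFPowerSeriesAt
  have h3 : FormalMultilinearSeries.ofScalars K (fun n => iteratedDeriv n f 0 / (n ! : K)) =
      (0 : FormalMultilinearSeries K K K) := by
    have : (fun n : ℕ => iteratedDeriv n f 0 / (n ! : K)) = fun _ => 0 := funext h1
    rw [this]
    ext n
    simp [FormalMultilinearSeries.ofScalars]
  rw [h3] at h2
  exact h2.eventually_eq_zero

theorem t_GERM : Pool.Agent.W254.LF.S_GERM := by
  intro K _ _ _
  refine ⟨HahnSeries ℤ K, inferInstance, inferInstance, der, TL, fun x hx => ⟨_, der_eq_zero hx⟩,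
    fun c => ?_, fun f g hf hg => ?_, fun f g hf hg => ?_, fun f _ => TL_deriv f,
    fun f hf h => TL_eq_zero hf h, fun f g h => ?_⟩
  · unfold TL
    rw [TP_const, ofPowerSeries_C, HahnSeries.algebraMap_apply]
    rfl
  · unfold TL
    rw [TP_add hf hg, map_add]
  · unfold TL
    rw [TP_mul hf hg, map_mul]
  · unfold TL
    congr 1
    ext n
    simp only [TP, PowerSeries.coeff_mk]
    have h1 : f =ᶠ[𝓝 0] g := h
    rw [h1.iteratedDeriv_eq]

end Pool.Agent.W924.LF
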